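import Mathlib

/-!
MP_6cbd0e, Q1 (disproved).  `Z_2^8` has a maximal sum-free set with 28 elements, fewer than
`2^4 + 2^4 - 3 = 29`.
-/

namespace Pool.Agent.Results.MP_6cbd0e_co.SmallMaximal

/-- `A` is sum-free -/
def SumFree {r : ℕ} (A : Finset (Fin r → ZMod 2)) : Prop := ∀ a ∈ A, ∀ b ∈ A, a + b ∉ A

/-- `A` is a maximal sum-free set -/
def MaxSumFree {r : ℕ} (A : Finset (Fin r → ZMod 2)) : Prop :=
  SumFree A ∧ ∀ g, g ∉ A → ¬ SumFree (insert g A)

/-- the set of cardinalities of maximal sum-free sets in `Z_2^r` -/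
def sizes (r : ℕ) : Set ℕ := {k | ∃ A : Finset (Fin r → ZMod 2), MaxSumFree A ∧ A.card = k}

/-- `M_i(Z_2^r) = k`: `k` is a size and exactly `i - 1` sizes are larger -/
def IsMi (r i k : ℕ) : Prop := k ∈ sizes r ∧ {j ∈ sizes r | k < j}.ncard = i - 1

/-- the conjectured statement -/
def Conjecture : Prop := ∀ r : ℕ, 4 ≤ r →
  (∀ i, 2 ≤ i → i ≤ r - 2 → IsMi r i (2 ^ (r - 2) + 2 ^ (r - 2 - i))) ∧
  IsLeast (sizes r) (2 ^ ((r + 1) / 2) + 2 ^ (r / 2) - 3)

/-- binary digits -/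
def phi (n : ℕ) : Fin 8 → ZMod 2 := fun i => if n.testBit i then 1 else 0

lemma phi_xor (a b : ℕ) : phi a + phi b = phi (a ^^^ b) := by
  funext i
  simp only [phi, Pi.add_apply, Nat.testBit_xor]
  cases a.testBit i <;> cases b.testBit i <;> decide

/-- the 28-element set, coded in binary -/
def L : List ℕ := [106, 214, 126, 78, 9, 181, 141, 206, 135, 213, 134, 87, 235, 210, 160, 154, 14,
  178, 116, 183, 151, 189, 139, 68, 44, 22, 239, 127]

lemma phi_surj : ∀ g : Fin 8 → ZMod 2, ∃ n ∈ List.range 256, phi n = g := by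
  intro g
  refine ⟨∑ i : Fin 8, (g i).val * 2 ^ (i : ℕ), ?_, ?_⟩
  · rw [List.mem_range, Fin.sum_univ_eight]
    have h : ∀ i, (g i).val < 2 := fun i => ZMod.val_lt _
    have := h 0; have := h 1; have := h 2; have := h 3
    have := h 4; have := h 5; have := h 6; have := h 7
    simp only [Fin.val_zero, Fin.val_one, Fin.val_two]
    norm_num
    omega
  · revert g
    decide +kernel

lemma phi_inj : ∀ m ∈ List.range 256, ∀ n ∈ L, phi m = phi n → m = n := by
  decide +kernel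

lemma L_lt : ∀ a ∈ L, ∀ b ∈ L, a ^^^ b ∈ List.range 256 := by decide +kernel

lemma L_sumfree : ∀ a ∈ L, ∀ b ∈ L, a ^^^ b ∉ L := by decide +kernel

lemma L_complete : ∀ g ∈ List.range 256, g ∈ L ∨ ∃ a ∈ L, ∃ b ∈ L, a ^^^ b = g := by
  decide +kernel

/-- the set -/
def A : Finset (Fin 8 → ZMod 2) := (L.map phi).toFinset

lemma mem_A (g : Fin 8 → ZMod 2) : g ∈ A ↔ ∃ a ∈ L, phi a = g := by
  unfold A
  rw [List.mem_toFinset, List.mem_map]

lemma A_card : A.card = 28 := by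
  unfold A
  rw [List.toFinset_card_of_nodup]
  · rfl
  · decide +kernel

lemma A_max : MaxSumFree A := by
  constructor
  · intro x hx y hy hxy
    rw [mem_A] at hx hy hxy
    obtain ⟨a, ha, rfl⟩ := hx
    obtain ⟨b, hb, rfl⟩ := hy
    obtain ⟨c, hc, hc'⟩ := hxy
    rw [phi_xor] at hc'
    have := phi_inj _ (L_lt a ha b hb) c hc hc'.symm
    exact L_sumfree a ha b hb (this ▸ hc)
  · intro g hg hsf
    obtain ⟨n, hn, rfl⟩ := phi_surj g
    rcases L_complete n hn with h | ⟨a, ha, b, hb, hab⟩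
    · exact hg ((mem_A _).mpr ⟨n, h, rfl⟩)
    · apply hsf (phi a) (Finset.mem_insert_of_mem ((mem_A _).mpr ⟨a, ha, rfl⟩)) (phi b)
        (Finset.mem_insert_of_mem ((mem_A _).mpr ⟨b, hb, rfl⟩))
      rw [phi_xor, hab]
      exact Finset.mem_insert_self _ _

/-- **Q1 is false.** -/
theorem result : (∃ A : Finset (Fin 8 → ZMod 2), MaxSumFree A ∧ A.card = 28) ∧ ¬ Conjecture := by
  refine ⟨⟨A, A_max, A_card⟩, fun h => ?_⟩
  have h1 := (h 8 (by norm_num)).2
  have h2 := h1.2 (show 28 ∈ sizes 8 from ⟨A, A_max, A_card⟩)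
  norm_num at h2

end Pool.Agent.Results.MP_6cbd0e_co.SmallMaximal
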